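import Pool.Agent.Work.MP_185d81_co.SpConv

/-!
# MP_185d81_co: the (7,3) problem for graphs with random-like codegrees

Let `G` be a graph on `n` vertices in which every 7 vertices contain an independent set of size 3, let
`α = α(G)` and let `d = 2 |E| / n` be its average degree.  If for every independent set `U` and every
`x ∈ U` the codegrees `|N(x) ∩ N(c)|`, `c ∈ U \ {x}`, sum to at most `C (d² / n) α`, then
`n ≤ (5 C + 6) α²`.  In particular this holds if any two distinct non-adjacent vertices have at most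
`C d² / n` common neighbours.
-/

namespace Pool.Agent.Results.MP_185d81_co.CodegreeBounded

open EH73 Finset Classical

private theorem indep_pos {n : ℕ} (hn : 0 < n) (G : SimpleGraph (Fin n)) : 1 ≤ G.indepNum := by
  have h : G.IsIndepSet (({⟨0, hn⟩} : Finset (Fin n)) : Set (Fin n)) := by
    intro a ha b hb hab
    rw [Finset.mem_coe, Finset.mem_singleton] at ha hb
    exact absurd (ha.trans hb.symm) hab
  have := indLe_indepNum G _ h
  simpa using this

private theorem k4_bound {n : ℕ} (hn : 0 < n) (G : SimpleGraph (Fin n)) (hP : P73 G)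
    (hk : ¬ ∀ x y z w : Fin n, G.Adj x y → G.Adj x z → G.Adj x w → G.Adj y z → G.Adj y w →
      G.Adj z w → False) : (n : ℝ) ≤ 6 * (G.indepNum : ℝ) ^ 2 := by
  push Not at hk
  obtain ⟨x, y, z, w, h1, h2, h3, h4, h5, h6, _⟩ := hk
  have h := k4case G hP x y z w h1 h2 h3 h4 h5 h6
  rw [Fintype.card_fin] at h
  have ha : (1 : ℝ) ≤ (G.indepNum : ℝ) := by exact_mod_cast indep_pos hn G
  have h' : (n : ℝ) ≤ (G.indepNum : ℝ) * ((G.indepNum : ℝ) + 1) + 4 := by exact_mod_cast h
  nlinarith

private theorem part_one (n : ℕ) (G : SimpleGraph (Fin n)) (C : ℝ) (hC0 : 0 ≤ C)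
    (hP : ∀ s : Finset (Fin n), s.card = 7 → ∃ t : Finset (Fin n), t ⊆ s ∧ G.IsNIndepSet 3 t)
    (hC : ∀ (x : Fin n) (U : Finset (Fin n)), x ∈ U → G.IsIndepSet (U : Set (Fin n)) →
        ∑ c ∈ U with c ≠ x, ((G.commonNeighbors x c).ncard : ℝ) ≤
          C * ((2 * (G.edgeSet.ncard : ℝ) / n) ^ 2 / n) * (G.indepNum : ℝ)) :
    (n : ℝ) ≤ (5 * C + 6) * (G.indepNum : ℝ) ^ 2 := by
  rcases Nat.eq_zero_or_pos n with rfl | hn
  · push_cast
    positivity
  by_cases hk : ∀ x y z w : Fin n, G.Adj x y → G.Adj x z → G.Adj x w → G.Adj y z → G.Adj y w →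
      G.Adj z w → False
  · have hG := good_of_P73 G hP hk
    have h := fifth_bound hG (indep_pos hn G) C hC0 (by
      intro x U W hxU hU hW
      have h1 := hC x U hxU hU
      rw [Fintype.card_fin, dar_eq_edges]
      push_cast
      refine le_trans ?_ h1
      calc ∑ c ∈ W, (cod G G x c : ℝ) = ∑ c ∈ W, ((G.commonNeighbors x c).ncard : ℝ) := by
            apply Finset.sum_congr rfl
            intro c _
            rw [cod_eq_ncard]
        _ ≤ ∑ c ∈ U with c ≠ x, ((G.commonNeighbors x c).ncard : ℝ) := by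
            apply Finset.sum_le_sum_of_subset_of_nonneg
            · intro c hc
              exact Finset.mem_filter.mpr (hW c hc)
            · intro c _ _
              exact Nat.cast_nonneg _)
    rwa [Fintype.card_fin] at h
  · have h := k4_bound hn G hP hk
    nlinarith [mul_nonneg hC0 (sq_nonneg (G.indepNum : ℝ))]

/-- **The (7,3) problem for graphs with random-like codegrees.** -/
theorem result :
    ∀ (n : ℕ) (G : SimpleGraph (Fin n)) (C : ℝ), 0 ≤ C →
      (∀ s : Finset (Fin n), s.card = 7 → ∃ t : Finset (Fin n), t ⊆ s ∧ G.IsNIndepSet 3 t) →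
      (∀ (x : Fin n) (U : Finset (Fin n)), x ∈ U → G.IsIndepSet (U : Set (Fin n)) →
        ∑ c ∈ U with c ≠ x, ((G.commonNeighbors x c).ncard : ℝ) ≤
          C * ((2 * (G.edgeSet.ncard : ℝ) / n) ^ 2 / n) * (G.indepNum : ℝ)) →
      (n : ℝ) ≤ (5 * C + 6) * (G.indepNum : ℝ) ^ 2 :=
  part_one

end Pool.Agent.Results.MP_185d81_co.CodegreeBounded
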