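import Pool.Agent.Work.MP_185d81_co.SpConv

/-!
# MP_185d81_co: the (7,3) problem for graphs with comparable codegrees in the diamonds

Let `G` be a graph on `n` vertices in which every 7 vertices contain an independent set of size 3 and let
`α = α(G)`.  If `|N(x) ∩ N(c)| ≤ C |N(y) ∩ N(z)|` whenever `x, c` are distinct and non-adjacent, `y, z` are
adjacent and both `y` and `z` are adjacent to both `x` and `c`, then `n ≤ (4 C + 6) α²`.
-/

namespace Pool.Agent.Results.MP_185d81_co.DiamondCodegrees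

open EH73 Finset Classical

private theorem indep_pos {n : ℕ} (hn : 0 < n) (G : SimpleGraph (Fin n)) : 1 ≤ G.indepNum := by
  have h : G.IsIndepSet (({⟨0, hn⟩} : Finset (Fin n)) : Set (Fin n)) := by
    intro a ha b hb hab
    rw [Finset.mem_coe, Finset.mem_singleton] at ha hb
    exact absurd (ha.trans hb.symm) hab
  have := indLe_indepNum G _ h
  simpa using this

private theorem k4_bound {n : ℕ} (hn : 0 < n) (G : SimpleGraph (Fin n)) (hP : P73 G)
    (hk : ¬ ∀ x y z w : Fin n, G.Adj x y → G.Adj x z → G.Adj x w → G.Adj y z → G.Adj y w →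
      G.Adj z w → False) : (n : ℝ) ≤ 6 * (G.indepNum : ℝ) ^ 2 := by
  push Not at hk
  obtain ⟨x, y, z, w, h1, h2, h3, h4, h5, h6, _⟩ := hk
  have h := k4case G hP x y z w h1 h2 h3 h4 h5 h6
  rw [Fintype.card_fin] at h
  have ha : (1 : ℝ) ≤ (G.indepNum : ℝ) := by exact_mod_cast indep_pos hn G
  have h' : (n : ℝ) ≤ (G.indepNum : ℝ) * ((G.indepNum : ℝ) + 1) + 4 := by exact_mod_cast h
  nlinarith

private theorem part_three (n : ℕ) (G : SimpleGraph (Fin n)) (C : ℝ) (hC0 : 0 < C)
    (hP : ∀ s : Finset (Fin n), s.card = 7 → ∃ t : Finset (Fin n), t ⊆ s ∧ G.IsNIndepSet 3 t)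
    (hC : ∀ x c y z : Fin n, x ≠ c → ¬ G.Adj x c → G.Adj y z → G.Adj x y → G.Adj x z → G.Adj c y →
      G.Adj c z → ((G.commonNeighbors x c).ncard : ℝ) ≤ C * ((G.commonNeighbors y z).ncard : ℝ)) :
    (n : ℝ) ≤ (4 * C + 6) * (G.indepNum : ℝ) ^ 2 := by
  rcases Nat.eq_zero_or_pos n with rfl | hn
  · push_cast
    positivity
  have ha : (1 : ℝ) ≤ (G.indepNum : ℝ) := by exact_mod_cast indep_pos hn G
  by_cases hk : ∀ x y z w : Fin n, G.Adj x y → G.Adj x z → G.Adj x w → G.Adj y z → G.Adj y w →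
      G.Adj z w → False
  · have hG := good_of_P73 G hP hk
    have h := third_bound hG C hC0 (by
      intro x c y z hcx hxy hxz hyz hcy hcz
      have h1 := hC x c y z hcx.symm (fun h => hk x c y z h hxy hxz hcy hcz hyz) hyz hxy hxz hcy hcz
      rw [cod_eq_ncard, cod_eq_ncard]
      exact h1)
    rw [Fintype.card_fin] at h
    nlinarith
  · have h := k4_bound hn G hP hk
    nlinarith [mul_nonneg hC0.le (sq_nonneg (G.indepNum : ℝ))]

/-- **The (7,3) problem for graphs with comparable codegrees in the diamonds.** -/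
theorem result :
    ∀ (n : ℕ) (G : SimpleGraph (Fin n)) (C : ℝ), 0 < C →
      (∀ s : Finset (Fin n), s.card = 7 → ∃ t : Finset (Fin n), t ⊆ s ∧ G.IsNIndepSet 3 t) →
      (∀ x c y z : Fin n, x ≠ c → ¬ G.Adj x c → G.Adj y z → G.Adj x y → G.Adj x z → G.Adj c y →
        G.Adj c z → ((G.commonNeighbors x c).ncard : ℝ) ≤ C * ((G.commonNeighbors y z).ncard : ℝ)) →
      (n : ℝ) ≤ (4 * C + 6) * (G.indepNum : ℝ) ^ 2 :=
  part_three

end Pool.Agent.Results.MP_185d81_co.DiamondCodegrees
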