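import Pool.Agent.Work.MP_185d81_co.SpConv

/-!
# MP_185d81_co: the (7,3) problem with an excluded join

Let `G` be a graph on `n` vertices in which every 7 vertices contain an independent set of size 3, let
`α = α(G)` and `t ≥ 1`.  If no two distinct non-adjacent vertices have `t + 1` pairwise disjoint edges in
their common neighbourhood, then `n ≤ 6 √t α²`.
-/

namespace Pool.Agent.Results.MP_185d81_co.ExcludedJoin

open EH73 Finset Classical

private theorem indep_pos {n : ℕ} (hn : 0 < n) (G : SimpleGraph (Fin n)) : 1 ≤ G.indepNum := by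
  have h : G.IsIndepSet (({⟨0, hn⟩} : Finset (Fin n)) : Set (Fin n)) := by
    intro a ha b hb hab
    rw [Finset.mem_coe, Finset.mem_singleton] at ha hb
    exact absurd (ha.trans hb.symm) hab
  have := indLe_indepNum G _ h
  simpa using this

private theorem k4_bound {n : ℕ} (hn : 0 < n) (G : SimpleGraph (Fin n)) (hP : P73 G)
    (hk : ¬ ∀ x y z w : Fin n, G.Adj x y → G.Adj x z → G.Adj x w → G.Adj y z → G.Adj y w →
      G.Adj z w → False) : (n : ℝ) ≤ 6 * (G.indepNum : ℝ) ^ 2 := by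
  push Not at hk
  obtain ⟨x, y, z, w, h1, h2, h3, h4, h5, h6, _⟩ := hk
  have h := k4case G hP x y z w h1 h2 h3 h4 h5 h6
  rw [Fintype.card_fin] at h
  have ha : (1 : ℝ) ≤ (G.indepNum : ℝ) := by exact_mod_cast indep_pos hn G
  have h' : (n : ℝ) ≤ (G.indepNum : ℝ) * ((G.indepNum : ℝ) + 1) + 4 := by exact_mod_cast h
  nlinarith

private theorem part_one (n t : ℕ) (G : SimpleGraph (Fin n)) (ht : 1 ≤ t)
    (hP : ∀ s : Finset (Fin n), s.card = 7 → ∃ t : Finset (Fin n), t ⊆ s ∧ G.IsNIndepSet 3 t)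
    (hJ : ¬ ∃ (x c : Fin n) (y z : Fin (t + 1) → Fin n), x ≠ c ∧ ¬ G.Adj x c ∧
      Function.Injective (Sum.elim y z) ∧ ∀ i, G.Adj (y i) (z i) ∧ G.Adj x (y i) ∧ G.Adj x (z i) ∧
        G.Adj c (y i) ∧ G.Adj c (z i)) :
    (n : ℝ) ≤ 6 * Real.sqrt t * (G.indepNum : ℝ) ^ 2 := by
  rcases Nat.eq_zero_or_pos n with rfl | hn
  · push_cast
    positivity
  have ha : (1 : ℝ) ≤ (G.indepNum : ℝ) := by exact_mod_cast indep_pos hn G
  have ht' : (1 : ℝ) ≤ t := by exact_mod_cast ht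
  have hs1 : 1 ≤ Real.sqrt t := by
    rw [Real.one_le_sqrt]
    exact ht'
  have hs2 : Real.sqrt t ^ 2 = t := Real.sq_sqrt (by linarith)
  by_cases hk : ∀ x y z w : Fin n, G.Adj x y → G.Adj x z → G.Adj x w → G.Adj y z → G.Adj y w →
      G.Adj z w → False
  · have hG := good_of_P73 G hP hk
    have h := first_bound hG t (by
      intro x c hcx M hM hMc hMi
      by_contra hcon
      push Not at hcon
      obtain ⟨y, z, hinj, hyz⟩ := families_of_matching M t hcon
        (fun e he => (mem_lk.mp (hM he)).2.2.ne) hMi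
      have h0 := mem_lk.mp (hM (hyz 0))
      refine hJ ⟨x, c, y, z, hcx.symm, ?_, hinj, ?_⟩
      · intro hxc
        exact hk x c (y 0) (z 0) hxc h0.1 h0.2.1 (hMc _ (hyz 0)).1 (hMc _ (hyz 0)).2 h0.2.2
      · intro i
        have hi := mem_lk.mp (hM (hyz i))
        exact ⟨hi.2.2, hi.1, hi.2.1, (hMc _ (hyz i)).1, (hMc _ (hyz i)).2⟩)
    rw [Fintype.card_fin] at h
    have hs3 : Real.sqrt (5 * t + 1) ≤ 5 / 2 * Real.sqrt t := by
      apply Real.sqrt_le_iff.mpr
      refine ⟨by positivity, ?_⟩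
      nlinarith
    have h2 : (1 + Real.sqrt (5 * t + 1)) * (G.indepNum : ℝ) ^ 2 ≤
        (1 + 5 / 2 * Real.sqrt t) * (G.indepNum : ℝ) ^ 2 :=
      mul_le_mul_of_nonneg_right (by linarith) (sq_nonneg _)
    nlinarith [sq_nonneg (G.indepNum : ℝ)]
  · have h := k4_bound hn G hP hk
    nlinarith [sq_nonneg (G.indepNum : ℝ)]

/-- **The (7,3) problem with an excluded join.** -/
theorem result :
    ∀ (n t : ℕ) (G : SimpleGraph (Fin n)), 1 ≤ t →
      (∀ s : Finset (Fin n), s.card = 7 → ∃ t : Finset (Fin n), t ⊆ s ∧ G.IsNIndepSet 3 t) →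
      (¬ ∃ (x c : Fin n) (y z : Fin (t + 1) → Fin n), x ≠ c ∧ ¬ G.Adj x c ∧
        Function.Injective (Sum.elim y z) ∧ ∀ i, G.Adj (y i) (z i) ∧ G.Adj x (y i) ∧ G.Adj x (z i) ∧
          G.Adj c (y i) ∧ G.Adj c (z i)) →
      (n : ℝ) ≤ 6 * Real.sqrt t * (G.indepNum : ℝ) ^ 2 :=
  fun n t G ht hP hJ => part_one n t G ht hP hJ

end Pool.Agent.Results.MP_185d81_co.ExcludedJoin
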