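import Pool.Agent.Work.MP_185d81_co.Asym
import Pool.Agent.Work.MP_185d81_co.Reduct

/-!
# MP_185d81_co: the (7,3) problem of Erdős and Hajnal, exponent 8/19

For every ε > 0, every graph on n ≥ N(ε) vertices in which every 7 vertices contain an independent
set of size 3 has independence number at least n^(8/19 - ε).
-/

namespace Pool.Agent.Results.MP_185d81_co.ExponentEightNineteenths

open EH73

private theorem k4num (ε : ℝ) (hε : 0 < ε) (n α : ℕ) (hn : 6 ^ 7 ≤ n) (h : n ≤ α * (α + 1) + 4) :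
    (n : ℝ) ^ ((8 : ℝ) / 19 - ε) ≤ (α : ℝ) := by
  by_contra hlt
  push Not at hlt
  have hn' : (6 : ℝ) ^ (7 : ℕ) ≤ n := by exact_mod_cast hn
  have hn1 : (1 : ℝ) ≤ n := le_trans (by norm_num) hn'
  have hn0 : (0 : ℝ) < n := by linarith
  set x : ℝ := (n : ℝ) ^ ((8 : ℝ) / 19) with hx
  have hx1 : 1 ≤ x := Real.one_le_rpow hn1 (by norm_num)
  have hax : (α : ℝ) < x :=
    lt_of_lt_of_le hlt (Real.rpow_le_rpow_of_exponent_le hn1 (by linarith))
  have hα0 : (0 : ℝ) ≤ α := Nat.cast_nonneg _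
  have hh : (n : ℝ) ≤ α * (α + 1) + 4 := by exact_mod_cast h
  have h1 : (n : ℝ) < 6 * x ^ 2 := by nlinarith
  have hx2 : x ^ 2 = (n : ℝ) ^ ((16 : ℝ) / 19) := by
    rw [hx, ← Real.rpow_natCast, ← Real.rpow_mul hn0.le]
    norm_num
  have h2 : (n : ℝ) = (n : ℝ) ^ ((3 : ℝ) / 19) * (n : ℝ) ^ ((16 : ℝ) / 19) := by
    rw [← Real.rpow_add hn0]
    norm_num
  have h3 : (6 : ℝ) ≤ (n : ℝ) ^ ((3 : ℝ) / 19) := by
    calc (6 : ℝ) = (6 : ℝ) ^ (1 : ℝ) := by rw [Real.rpow_one]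
      _ ≤ (6 : ℝ) ^ ((21 : ℝ) / 19) := Real.rpow_le_rpow_of_exponent_le (by norm_num) (by norm_num)
      _ = ((6 : ℝ) ^ (7 : ℕ)) ^ ((3 : ℝ) / 19) := by
          rw [← Real.rpow_natCast, ← Real.rpow_mul (by norm_num)]
          norm_num
      _ ≤ (n : ℝ) ^ ((3 : ℝ) / 19) := Real.rpow_le_rpow (by norm_num) hn' (by norm_num)
  have h4 : 6 * x ^ 2 ≤ (n : ℝ) := by
    rw [hx2]
    conv_rhs => rw [h2]
    exact mul_le_mul_of_nonneg_right h3 (by positivity)
  linarith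

/-- **The (7,3) problem, exponent 8/19.** For every ε > 0 there is N such that every graph on n ≥ N
vertices in which every 7 vertices contain an independent set of size 3 has independence number at
least n^(8/19 - ε). -/
theorem result :
    ∀ ε : ℝ, 0 < ε → ∃ N : ℕ, ∀ n : ℕ, N ≤ n → ∀ G : SimpleGraph (Fin n),
      (∀ s : Finset (Fin n), s.card = 7 → ∃ t : Finset (Fin n), t ⊆ s ∧ G.IsNIndepSet 3 t) →
      (n : ℝ) ^ ((8 : ℝ) / 19 - ε) ≤ (G.indepNum : ℝ) := by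
  intro ε hε
  obtain ⟨N, hN⟩ := asym ε hε
  refine ⟨max N (6 ^ 7), ?_⟩
  intro n hn G hP
  by_cases hk4 : ∀ x y z w : Fin n, G.Adj x y → G.Adj x z → G.Adj x w → G.Adj y z → G.Adj y w →
      G.Adj z w → False
  · exact hN n (le_trans (le_max_left _ _) hn) G (good_of_P73 G hP hk4)
  · push Not at hk4
    obtain ⟨x, y, z, w, h1, h2, h3, h4, h5, h6, _⟩ := hk4
    have h := k4case G hP x y z w h1 h2 h3 h4 h5 h6
    rw [Fintype.card_fin] at h
    exact k4num ε hε n G.indepNum (le_trans (le_max_right _ _) hn) h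

end Pool.Agent.Results.MP_185d81_co.ExponentEightNineteenths
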